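import Mathlib

/-!
# MP_c7e24e_co: the recombination space can be disconnected at every connectivity and every slack

For every `t` and every real `c` there are a `t`-connected graph `G` on `n = 2 k` vertices and a
slack `s ≥ c n / k` for which the space of the balanced connected `k`-partitions of `G`, with the
recombination moves, is disconnected. For `t = 2`, `c = 1` this answers Q1 in the negative; the
smallest example of the construction has 30 vertices (`k = 15`, `s = 2`).

The graph: `t` outer hubs, three inner hubs, and leaves, which are adjacent to hubs only. All leaves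
are adjacent to all outer hubs. Each inner hub has `d` private leaves, and for each `i` modulo 3 there
is a leaf `x i` adjacent to the inner hubs `i` and `i + 1`. There are `t (d + 1) + (t + 3) d`
further leaves. With `k = (t + 3) (d + 1)` and slack `d` the districts have at most `d + 2` vertices,
and counting shows that the `t + 3` hubs are in different districts with exactly `d + 1` leaves, while
all other districts are single leaves. The inner hubs need all the `3 (d + 1)` leaves next to them, so
the leaves `x i` go either all to the hubs `i` or all to the hubs `i + 1`. A recombination move changes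
only two districts and cannot lead from the first kind to the second.
-/

set_option autoImplicit false

namespace Pool.Agent.Results.MP_c7e24e_co.AnyConnectivityAnySlack

open Finset

section Defs

variable {V : Type} [Fintype V] [DecidableEq V]

/-- `P` is a `(k, s)`-BCP: a partition of the vertex set into `k` districts which induce connected
subgraphs and whose sizes differ from `n / k` by at most `s`. -/
def IsBCP (G : SimpleGraph V) (k : ℕ) (s : ℝ) (P : Finpartition (univ : Finset V)) : Prop :=
  P.parts.card = k ∧ ∀ U ∈ P.parts, (G.induce (U : Set V)).Connected ∧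
    |(U.card : ℝ) - Fintype.card V / k| ≤ s

/-- `P` and `Q` are different and differ by a recombination move: two districts `A`, `B` of `P` are
merged and split again into the districts `C`, `D` of `Q`, all other districts stay fixed. -/
def Recomb (P Q : Finpartition (univ : Finset V)) : Prop :=
  P ≠ Q ∧ ∃ A ∈ P.parts, ∃ B ∈ P.parts, ∃ C ∈ Q.parts, ∃ D ∈ Q.parts, A ≠ B ∧ C ≠ D ∧
    A ∪ B = C ∪ D ∧ P.parts \ {A, B} = Q.parts \ {C, D}

/-- the configuration space `R_s(G, k)` -/
def confSpace (G : SimpleGraph V) (k : ℕ) (s : ℝ) :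
    SimpleGraph {P : Finpartition (univ : Finset V) // IsBCP G k s P} where
  Adj P Q := Recomb P.1 Q.1
  symm := ⟨by
    rintro P Q ⟨h0, A, hA, B, hB, C, hC, D, hD, h1, h2, h3, h4⟩
    exact ⟨h0.symm, C, hC, D, hD, A, hA, B, hB, h2, h1, h3.symm, h4.symm⟩⟩
  loopless := ⟨fun P h => h.1 rfl⟩

/-- connected, at least three vertices, no cut vertex -/
def Biconnected (G : SimpleGraph V) : Prop :=
  G.Connected ∧ 3 ≤ Fintype.card V ∧ ∀ v : V, (G.induce ({v}ᶜ : Set V)).Connected

/-- `t`-connected: more than `t` vertices, and every set of fewer than `t` vertices leaves a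
connected graph -/
def KConnected (t : ℕ) (G : SimpleGraph V) : Prop :=
  t < Fintype.card V ∧ ∀ X : Finset V, X.card < t → (G.induce ((X : Set V)ᶜ)).Connected

end Defs

section Graph

/-- the hubs: `t` outer ones and three inner ones -/
abbrev Hub (t : ℕ) : Type := Fin t ⊕ Fin 3

/-- the leaves: further leaves, private leaves of the inner hubs, and the three leaves `x i` -/
abbrev Leaf (t d : ℕ) : Type :=
  ((Fin t × Fin (d + 1)) ⊕ Fin ((t + 3) * d)) ⊕ ((Fin 3 × Fin d) ⊕ Fin 3)

/-- the vertices -/
abbrev Vx (t d : ℕ) : Type := Hub t ⊕ Leaf t d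

/-- adjacency of hubs and leaves -/
def inc {t d : ℕ} : Hub t → Leaf t d → Prop
  | .inl _, _ => True
  | .inr _, .inl _ => False
  | .inr i, .inr (.inl j) => i = j.1
  | .inr i, .inr (.inr j) => i = j ∨ i = j + 1

/-- the graph -/
def gr (t d : ℕ) : SimpleGraph (Vx t d) where
  Adj x y := match x, y with
    | .inl h, .inr l => inc h l
    | .inr l, .inl h => inc h l
    | _, _ => False
  symm := ⟨by rintro (h | l) (h' | l') <;> simp⟩
  loopless := ⟨by rintro (h | l) <;> simp⟩

theorem adj_hl {t d : ℕ} (h : Hub t) (l : Leaf t d) :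
    (gr t d).Adj (Sum.inl h) (Sum.inr l) ↔ inc h l := Iff.rfl

theorem adj_lh {t d : ℕ} (h : Hub t) (l : Leaf t d) :
    (gr t d).Adj (Sum.inr l) (Sum.inl h) ↔ inc h l := Iff.rfl

theorem card_Vx (t d : ℕ) : Fintype.card (Vx t d) = 2 * ((t + 3) * (d + 1)) := by
  simp only [Fintype.card_sum, Fintype.card_prod, Fintype.card_fin]
  ring

end Graph

section Conn

variable {V : Type} [Fintype V] [DecidableEq V]

/-- a star is connected -/
theorem connected_of_center (G : SimpleGraph V) (U : Set V) (c : V) (hc : c ∈ U)
    (h : ∀ u ∈ U, u = c ∨ G.Adj c u) : (G.induce U).Connected := by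
  have key : ∀ u : U, (G.induce U).Reachable ⟨c, hc⟩ u := by
    rintro ⟨u, hu⟩
    rcases h u hu with rfl | hadj
    · exact SimpleGraph.Reachable.refl _
    · exact SimpleGraph.Adj.reachable (by simpa using hadj)
  have : Nonempty U := ⟨⟨c, hc⟩⟩
  exact SimpleGraph.Connected.mk fun u v => (key u).symm.trans (key v)

theorem exists_adj {G : SimpleGraph V} {U : Set V} (hU : (G.induce U).Connected) {u v : V}
    (hu : u ∈ U) (hv : v ∈ U) (hne : u ≠ v) : ∃ w ∈ U, G.Adj u w := by
  obtain ⟨p⟩ := hU.preconnected ⟨u, hu⟩ ⟨v, hv⟩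
  cases p with
  | nil => exact absurd rfl hne
  | cons hadj _ => exact ⟨_, Subtype.coe_prop _, hadj⟩

end Conn

section Structure

variable {t d : ℕ} {P : Finpartition (univ : Finset (Vx t d))}

/-- the district of a hub -/
def blk (P : Finpartition (univ : Finset (Vx t d))) (h : Hub t) : Finset (Vx t d) :=
  P.part (Sum.inl h)

theorem blk_mem (h : Hub t) : blk P h ∈ P.parts := P.part_mem.2 (mem_univ _)

theorem self_mem (h : Hub t) : Sum.inl h ∈ blk P h := P.mem_part (mem_univ _)

theorem blk_eq {U : Finset (Vx t d)} {h : Hub t} (hU : U ∈ P.parts) (hh : Sum.inl h ∈ U) :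
    blk P h = U := P.part_eq_of_mem hU hh

/-- the number of districts of the example -/
abbrev kk (t d : ℕ) : ℕ := (t + 3) * (d + 1)

theorem ratio (t d : ℕ) : (Fintype.card (Vx t d) : ℝ) / (kk t d : ℕ) = 2 := by
  rw [card_Vx]
  have : (((t + 3) * (d + 1) : ℕ) : ℝ) ≠ 0 := by positivity
  rw [Nat.cast_mul 2, mul_div_assoc, div_self this]
  norm_num

theorem size_le (hP : IsBCP (gr t d) (kk t d) d P) {U : Finset (Vx t d)} (hU : U ∈ P.parts) :
    U.card ≤ d + 2 := by
  have h := (hP.2 U hU).2
  rw [ratio] at h
  have h2 := (abs_le.1 h).2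
  have : (U.card : ℝ) ≤ ((d + 2 : ℕ) : ℝ) := by push_cast; linarith
  exact_mod_cast this

theorem small (hP : IsBCP (gr t d) (kk t d) d P) {U : Finset (Vx t d)} (hU : U ∈ P.parts)
    (h0 : ∀ h : Hub t, Sum.inl h ∉ U) : U.card ≤ 1 := by
  by_contra hcon
  obtain ⟨u, hu, v, hv, hne⟩ := Finset.one_lt_card.1 (not_le.1 hcon)
  obtain ⟨w, hw, hadj⟩ := exists_adj (hP.2 U hU).1 (u := u) (v := v) (by simpa using hu)
    (by simpa using hv) hne
  rcases u with h | l
  · exact h0 h hu
  · rcases w with h | l'
    · exact h0 h (by simpa using hw)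
    · exact hadj

/-- the districts of the hubs -/
def hubBlocks (P : Finpartition (univ : Finset (Vx t d))) : Finset (Finset (Vx t d)) :=
  univ.image (blk P)

theorem hubBlocks_subset : hubBlocks P ⊆ P.parts := by
  intro U hU
  obtain ⟨h, -, rfl⟩ := Finset.mem_image.1 hU
  exact blk_mem h

theorem sum_ge (hP : IsBCP (gr t d) (kk t d) d P) :
    (t + 3) * (d + 1) + (hubBlocks P).card ≤ ∑ U ∈ hubBlocks P, U.card := by
  have h1 : ∑ U ∈ P.parts, U.card = 2 * ((t + 3) * (d + 1)) := by
    rw [P.sum_card_parts, Finset.card_univ, card_Vx]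
  have h2 : ∑ U ∈ P.parts, U.card =
      ∑ U ∈ P.parts \ hubBlocks P, U.card + ∑ U ∈ hubBlocks P, U.card :=
    (Finset.sum_sdiff hubBlocks_subset).symm
  have h3 : ∑ U ∈ P.parts \ hubBlocks P, U.card ≤ (P.parts \ hubBlocks P).card * 1 := by
    apply Finset.sum_le_card_nsmul
    intro U hU
    rw [Finset.mem_sdiff] at hU
    refine small hP hU.1 fun h hh => hU.2 ?_
    exact Finset.mem_image.2 ⟨h, mem_univ _, blk_eq hU.1 hh⟩
  have h4 : (P.parts \ hubBlocks P).card = (t + 3) * (d + 1) - (hubBlocks P).card := by
    rw [Finset.card_sdiff_of_subset hubBlocks_subset, hP.1]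
  have h5 : (hubBlocks P).card ≤ (t + 3) * (d + 1) := by
    have := Finset.card_le_card (hubBlocks_subset (P := P))
    rw [hP.1] at this
    exact this
  omega

theorem card_hubBlocks (hP : IsBCP (gr t d) (kk t d) d P) : (hubBlocks P).card = t + 3 := by
  have h1 := sum_ge hP
  have h2 : ∑ U ∈ hubBlocks P, U.card ≤ (hubBlocks P).card * (d + 2) :=
    Finset.sum_le_card_nsmul _ _ _ fun U hU => size_le hP (hubBlocks_subset hU)
  have h3 : (hubBlocks P).card ≤ t + 3 := by
    refine Finset.card_image_le.trans ?_
    simp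
  have h4 : (t + 3) * (d + 1) ≤ (hubBlocks P).card * (d + 1) := by nlinarith
  have h5 : t + 3 ≤ (hubBlocks P).card := Nat.le_of_mul_le_mul_right h4 (by omega)
  omega

theorem blk_inj (hP : IsBCP (gr t d) (kk t d) d P) : Function.Injective (blk P) := by
  have h1 : (univ.image (blk P)).card = (univ : Finset (Hub t)).card := by
    have := card_hubBlocks hP
    unfold hubBlocks at this
    rw [this]
    simp
  have h2 := Finset.card_image_iff.1 h1
  intro x y hxy
  exact h2 (by simp) (by simp) hxy

theorem card_blk (hP : IsBCP (gr t d) (kk t d) d P) (h : Hub t) : (blk P h).card = d + 2 := by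
  refine le_antisymm (size_le hP (blk_mem h)) ?_
  have h1 := sum_ge hP
  have h2 := card_hubBlocks hP
  have hm : blk P h ∈ hubBlocks P := Finset.mem_image.2 ⟨h, mem_univ _, rfl⟩
  have h3 : ∑ U ∈ (hubBlocks P).erase (blk P h), U.card ≤
      ((hubBlocks P).erase (blk P h)).card * (d + 2) :=
    Finset.sum_le_card_nsmul _ _ _ fun U hU =>
      size_le hP (hubBlocks_subset (Finset.mem_of_mem_erase hU))
  rw [Finset.card_erase_of_mem hm, h2] at h3
  have h4 := Finset.add_sum_erase (hubBlocks P) (fun U => U.card) hm
  have h5 : (t + 3 - 1) = t + 2 := by omega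
  rw [h5] at h3
  rw [h2] at h1
  nlinarith

theorem inc_of_mem (hP : IsBCP (gr t d) (kk t d) d P) {h : Hub t} {l : Leaf t d}
    (hl : Sum.inr l ∈ blk P h) : inc h l := by
  obtain ⟨w, hw, hadj⟩ := exists_adj (hP.2 _ (blk_mem (P := P) h)).1 (u := Sum.inr l)
    (v := Sum.inl h) (by simpa using hl) (by simpa using self_mem (P := P) h) (by simp)
  rcases w with h' | l'
  · have h1 : blk P h' = blk P h := blk_eq (blk_mem h) (by simpa using hw)
    have h2 := blk_inj hP h1
    subst h2
    exact hadj
  · exact hadj.elim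

/-- the leaves of the district of an inner hub -/
noncomputable def W (P : Finpartition (univ : Finset (Vx t d))) (i : Fin 3) :
    Finset (Leaf t d) := by
  classical
  exact univ.filter fun l => (Sum.inr l : Vx t d) ∈ blk P (Sum.inr i)

theorem mem_W {i : Fin 3} {l : Leaf t d} : l ∈ W P i ↔ (Sum.inr l : Vx t d) ∈ blk P (Sum.inr i) := by
  simp [W]

theorem card_W (hP : IsBCP (gr t d) (kk t d) d P) (i : Fin 3) : (W P i).card = d + 1 := by
  have h1 : blk P (Sum.inr i) =
      insert (Sum.inl (Sum.inr i) : Vx t d) ((W P i).map ⟨Sum.inr, Sum.inr_injective⟩) := by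
    ext x
    rcases x with h | l
    · simp only [Finset.mem_insert, Finset.mem_map, Function.Embedding.coeFn_mk, reduceCtorEq,
        and_false, exists_false, or_false, Sum.inl.injEq]
      constructor
      · intro hx
        exact blk_inj hP (blk_eq (blk_mem _) hx)
      · rintro rfl
        exact self_mem _
    · simp [mem_W]
  have h2 := card_blk hP (Sum.inr i)
  rw [h1, Finset.card_insert_of_notMem (by simp), Finset.card_map] at h2
  omega

theorem W_disj (hP : IsBCP (gr t d) (kk t d) d P) {i j : Fin 3} {l : Leaf t d} (hi : l ∈ W P i)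
    (hj : l ∈ W P j) : i = j := by
  rw [mem_W] at hi hj
  have h1 : blk P (Sum.inr i) = blk P (Sum.inr j) := by
    have e1 := P.part_eq_of_mem (blk_mem (P := P) (Sum.inr i)) hi
    have e2 := P.part_eq_of_mem (blk_mem (P := P) (Sum.inr j)) hj
    rw [← e1, ← e2]
  exact Sum.inr_injective (blk_inj hP h1)

theorem covered (hP : IsBCP (gr t d) (kk t d) d P) (x : (Fin 3 × Fin d) ⊕ Fin 3) :
    ∃ i, (Sum.inr x : Leaf t d) ∈ W P i := by
  have h1 : (univ.biUnion (W P)).card = 3 * (d + 1) := by
    rw [Finset.card_biUnion]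
    · simp [card_W hP]
    · intro i _ j _ hij
      rw [Function.onFun, Finset.disjoint_left]
      intro l hi hj
      exact hij (W_disj hP hi hj)
  have h2 : univ.biUnion (W P) ⊆
      (univ : Finset ((Fin 3 × Fin d) ⊕ Fin 3)).map ⟨Sum.inr, Sum.inr_injective⟩ := by
    intro l hl
    obtain ⟨i, -, hi⟩ := Finset.mem_biUnion.1 hl
    have h3 := inc_of_mem hP (mem_W.1 hi)
    rcases l with l | y
    · exact h3.elim
    · exact Finset.mem_map.2 ⟨y, mem_univ _, rfl⟩
  have h3 : univ.biUnion (W P) =
      (univ : Finset ((Fin 3 × Fin d) ⊕ Fin 3)).map ⟨Sum.inr, Sum.inr_injective⟩ := by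
    apply Finset.eq_of_subset_of_card_le h2
    rw [h1, Finset.card_map, Finset.card_univ]
    simp only [Fintype.card_sum, Fintype.card_prod, Fintype.card_fin]
    linarith
  have h4 : (Sum.inr x : Leaf t d) ∈ univ.biUnion (W P) := by
    rw [h3]
    exact Finset.mem_map.2 ⟨x, mem_univ _, rfl⟩
  obtain ⟨i, -, hi⟩ := Finset.mem_biUnion.1 h4
  exact ⟨i, hi⟩

/-- the leaf `x i` -/
abbrev tri (t d : ℕ) (i : Fin 3) : Leaf t d := Sum.inr (Sum.inr i)

theorem tri_or (hP : IsBCP (gr t d) (kk t d) d P) (i : Fin 3) :
    tri t d i ∈ W P i ∨ tri t d i ∈ W P (i + 1) := by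
  obtain ⟨j, hj⟩ := covered hP (Sum.inr i)
  have h1 : j = i ∨ j = i + 1 := inc_of_mem hP (mem_W.1 hj)
  rcases h1 with rfl | rfl
  · exact Or.inl hj
  · exact Or.inr hj

theorem priv_mem (hP : IsBCP (gr t d) (kk t d) d P) (i : Fin 3) (j : Fin d) :
    (Sum.inr (Sum.inl (i, j)) : Leaf t d) ∈ W P i := by
  obtain ⟨i', hi'⟩ := covered hP (Sum.inl (i, j))
  have h1 : i' = i := inc_of_mem hP (mem_W.1 hi')
  rwa [h1] at hi'

theorem not_both (hP : IsBCP (gr t d) (kk t d) d P) (i : Fin 3) :
    ¬ (tri t d (i + 1) ∈ W P (i + 1) ∧ tri t d i ∈ W P (i + 1)) := by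
  rintro ⟨h1, h2⟩
  have h3 : insert (tri t d (i + 1)) (insert (tri t d i)
      ((univ : Finset (Fin d)).map ⟨fun j => (Sum.inr (Sum.inl (i + 1, j)) : Leaf t d),
        fun a b hab => by simpa using hab⟩)) ⊆ W P (i + 1) := by
    intro l hl
    rw [Finset.mem_insert, Finset.mem_insert, Finset.mem_map] at hl
    rcases hl with rfl | rfl | ⟨j, -, rfl⟩
    · exact h1
    · exact h2
    · exact priv_mem hP _ _
  have h4 := Finset.card_le_card h3
  rw [card_W hP, Finset.card_insert_of_notMem, Finset.card_insert_of_notMem, Finset.card_map,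
    Finset.card_univ, Fintype.card_fin] at h4
  · omega
  · simp
  · simp only [Finset.mem_insert, Finset.mem_map, Finset.mem_univ, true_and,
      Function.Embedding.coeFn_mk, not_or]
    refine ⟨?_, by simp⟩
    intro h
    have h5 : i + 1 = i := Sum.inr_injective (Sum.inr_injective h)
    have h6 : ∀ i : Fin 3, i + 1 = i → False := by decide
    exact h6 i h5

/-- the two kinds of partitions -/
theorem dichotomy (hP : IsBCP (gr t d) (kk t d) d P) :
    (∀ i, tri t d i ∈ W P i) ∨ (∀ i, tri t d i ∈ W P (i + 1)) := by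
  have key : ∀ i : Fin 3, tri t d (i + 1) ∈ W P (i + 1) → tri t d i ∈ W P i := by
    intro i h
    rcases tri_or hP i with h1 | h1
    · exact h1
    · exact (not_both hP i ⟨h, h1⟩).elim
  have h2 : tri t d 1 ∈ W P 1 → tri t d 0 ∈ W P 0 := key 0
  have h3 : tri t d 2 ∈ W P 2 → tri t d 1 ∈ W P 1 := key 1
  have h4 : tri t d 0 ∈ W P 0 → tri t d 2 ∈ W P 2 := key 2
  by_cases h0 : tri t d 0 ∈ W P 0
  · left
    intro i
    fin_cases i
    · exact h0
    · exact h3 (h4 h0)
    · exact h4 h0
  · right
    intro i
    rcases tri_or hP i with h1 | h1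
    · exfalso
      apply h0
      fin_cases i
      · exact h1
      · exact h2 h1
      · exact h2 (h3 h1)
    · exact h1

/-- no move leads from the first kind to the second -/
theorem no_move {Q : Finpartition (univ : Finset (Vx t d))}
    (hP : IsBCP (gr t d) (kk t d) d P) (hQ : IsBCP (gr t d) (kk t d) d Q)
    (h : Recomb P Q) (h1 : ∀ i, tri t d i ∈ W P i) (h2 : ∀ i, tri t d i ∈ W Q (i + 1)) : False := by
  obtain ⟨-, A, hA, B, hB, C, hC, D, hD, hAB, hCD, hU, hS⟩ := h
  have key : ∀ i : Fin 3, blk P (Sum.inr i) = A ∨ blk P (Sum.inr i) = B := by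
    intro i
    by_contra hcon
    have h3 : blk P (Sum.inr i) ∈ P.parts \ {A, B} := by
      rw [Finset.mem_sdiff]
      refine ⟨blk_mem _, ?_⟩
      simpa using hcon
    rw [hS, Finset.mem_sdiff] at h3
    have h4 : blk Q (Sum.inr i) = blk P (Sum.inr i) := blk_eq h3.1 (self_mem _)
    have h5 : tri t d i ∈ W Q i := by
      rw [mem_W, h4, ← mem_W]
      exact h1 i
    have h6 := W_disj hQ h5 (h2 i)
    have h7 : ∀ i : Fin 3, i = i + 1 → False := by decide
    exact h7 i h6
  have hne : ∀ i j : Fin 3, i ≠ j → blk P (Sum.inr i) ≠ blk P (Sum.inr j) := fun i j hij e =>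
    hij (Sum.inr_injective (blk_inj hP e))
  have e01 := hne 0 1 (by decide)
  have e02 := hne 0 2 (by decide)
  have e12 := hne 1 2 (by decide)
  rcases key 0 with k0 | k0 <;> rcases key 1 with k1 | k1 <;> rcases key 2 with k2 | k2
  · exact e01 (k0.trans k1.symm)
  · exact e01 (k0.trans k1.symm)
  · exact e02 (k0.trans k2.symm)
  · exact e12 (k1.trans k2.symm)
  · exact e12 (k1.trans k2.symm)
  · exact e02 (k0.trans k2.symm)
  · exact e01 (k0.trans k1.symm)
  · exact e01 (k0.trans k1.symm)

theorem reach {P Q : {P : Finpartition (univ : Finset (Vx t d)) // IsBCP (gr t d) (kk t d) d P}}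
    (h : (confSpace (gr t d) (kk t d) d).Reachable P Q) (h1 : ∀ i, tri t d i ∈ W P.1 i) :
    ∀ i, tri t d i ∈ W Q.1 i := by
  obtain ⟨p⟩ := h
  induction p with
  | nil => exact h1
  | @cons u v w hadj p ih =>
    apply ih
    rcases dichotomy v.2 with h2 | h2
    · exact h2
    · exact (no_move u.2 v.2 hadj h1 h2).elim

end Structure

section Examples

variable {t d : ℕ}

/-- the labels of the districts -/
abbrev Lbl (t d : ℕ) : Type := Hub t ⊕ Fin ((t + 3) * d)

/-- the district of a vertex; the leaf `x i` goes to the inner hub `e i` -/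
def lab (e : Fin 3 → Fin 3) : Vx t d → Lbl t d
  | .inl h => .inl h
  | .inr (.inl (.inl a)) => .inl (.inl a.1)
  | .inr (.inl (.inr x)) => .inr x
  | .inr (.inr (.inl i)) => .inl (.inr i.1)
  | .inr (.inr (.inr i)) => .inl (.inr (e i))

/-- a representative of a label -/
def rep : Lbl t d → Vx t d
  | .inl h => .inl h
  | .inr x => .inr (.inl (.inr x))

theorem lab_rep (e : Fin 3 → Fin 3) (x : Lbl t d) : lab e (rep x) = x := by
  rcases x with h | x <;> rfl

/-- the setoid of the labelling -/
def labS (t d : ℕ) (e : Fin 3 → Fin 3) : Setoid (Vx t d) := Setoid.ker (lab e)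

instance (e : Fin 3 → Fin 3) : DecidableRel (labS t d e).r := fun x y =>
  inferInstanceAs (Decidable (lab e x = lab e y))

/-- the partition -/
def part (t d : ℕ) (e : Fin 3 → Fin 3) : Finpartition (univ : Finset (Vx t d)) :=
  Finpartition.ofSetoid (labS t d e)

theorem mem_part (e : Fin 3 → Fin 3) (x y : Vx t d) :
    y ∈ (part t d e).part x ↔ lab e x = lab e y :=
  Finpartition.mem_part_ofSetoid_iff_rel

theorem card_part (e : Fin 3 → Fin 3) : (part t d e).parts.card = kk t d := by
  have h1 : (univ : Finset (Lbl t d)).card = kk t d := by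
    rw [Finset.card_univ]
    simp only [Fintype.card_sum, Fintype.card_fin]
    ring
  rw [← h1]
  symm
  refine Finset.card_bij (fun x _ => (part t d e).part (rep x)) ?_ ?_ ?_
  · intro x _
    exact (part t d e).part_mem.2 (mem_univ _)
  · intro x _ y _ hxy
    have h2 : rep y ∈ (part t d e).part (rep x) := by
      rw [hxy]
      exact (part t d e).mem_part (mem_univ _)
    rw [mem_part, lab_rep, lab_rep] at h2
    exact h2
  · intro U hU
    obtain ⟨u, hu⟩ := (part t d e).nonempty_of_mem_parts hU
    refine ⟨lab e u, mem_univ _, ?_⟩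
    have h2 := (part t d e).part_eq_of_mem hU hu
    rw [← h2]
    apply (part t d e).part_eq_of_mem ((part t d e).part_mem.2 (mem_univ _))
    rw [mem_part, lab_rep]

theorem part_ok (e : Fin 3 → Fin 3) (hinj : Function.Injective e)
    (he : ∀ i, e i = i ∨ e i = i + 1) (hd : 1 ≤ d) :
    IsBCP (gr t d) (kk t d) d (part t d e) := by
  refine ⟨card_part e, ?_⟩
  intro U hU
  obtain ⟨u, hu⟩ := (part t d e).nonempty_of_mem_parts hU
  have hUe : ∀ v, v ∈ U ↔ lab e u = lab e v := by
    intro v
    rw [← (part t d e).part_eq_of_mem hU hu, mem_part]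
  have h1 : 1 ≤ U.card := Finset.card_pos.2 ⟨u, hu⟩
  have main : (∃ c ∈ U, ∀ v ∈ U, v = c ∨ (gr t d).Adj c v) ∧ U.card ≤ d + 2 := by
    rcases hlab : lab e u with (a | i) | x
    · constructor
      · refine ⟨Sum.inl (Sum.inl a), by rw [hUe, hlab]; rfl, ?_⟩
        intro v hv
        rw [hUe, hlab] at hv
        rcases v with h | l
        · left
          exact congrArg Sum.inl (Sum.inl_injective hv).symm
        · right
          exact trivial
      · have h2 : U ⊆ insert (Sum.inl (Sum.inl a)) ((univ : Finset (Fin (d + 1))).image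
            fun j => (Sum.inr (Sum.inl (Sum.inl (a, j))) : Vx t d)) := by
          intro v hv
          rw [hUe, hlab] at hv
          rcases v with h | ((⟨b, j⟩ | x) | (⟨i, j⟩ | i))
          · rw [Finset.mem_insert]
            left
            exact congrArg Sum.inl (Sum.inl_injective hv).symm
          · rw [Finset.mem_insert]
            right
            rw [Finset.mem_image]
            have hb : a = b := Sum.inl_injective (Sum.inl_injective hv)
            subst hb
            exact ⟨j, mem_univ _, rfl⟩
          · exact absurd hv (by simp [lab])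
          · exact absurd hv (by simp [lab])
          · exact absurd hv (by simp [lab])
        refine (Finset.card_le_card h2).trans ((Finset.card_insert_le _ _).trans ?_)
        have := Finset.card_image_le (s := (univ : Finset (Fin (d + 1))))
          (f := fun j => (Sum.inr (Sum.inl (Sum.inl (a, j))) : Vx t d))
        rw [Finset.card_univ, Fintype.card_fin] at this
        omega
    · constructor
      · refine ⟨Sum.inl (Sum.inr i), by rw [hUe, hlab]; rfl, ?_⟩
        intro v hv
        rw [hUe, hlab] at hv
        rcases v with h | ((⟨b, j⟩ | x) | (⟨i', j⟩ | i'))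
        · left
          exact congrArg Sum.inl (Sum.inl_injective hv).symm
        · exact absurd hv (by simp [lab])
        · exact absurd hv (by simp [lab])
        · right
          exact Sum.inr_injective (Sum.inl_injective hv)
        · right
          have h3 : i = e i' := Sum.inr_injective (Sum.inl_injective hv)
          change i = i' ∨ i = i' + 1
          rw [h3]
          exact he i'
      · obtain ⟨i0, hi0⟩ : ∃ i0, e i0 = i := (Finite.injective_iff_surjective.1 hinj) i
        have h2 : U ⊆ insert (Sum.inl (Sum.inr i)) (insert (Sum.inr (tri t d i0))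
            ((univ : Finset (Fin d)).image
              fun j => (Sum.inr (Sum.inr (Sum.inl (i, j))) : Vx t d))) := by
          intro v hv
          rw [hUe, hlab] at hv
          rcases v with h | ((⟨b, j⟩ | x) | (⟨i', j⟩ | i'))
          · rw [Finset.mem_insert]
            left
            exact congrArg Sum.inl (Sum.inl_injective hv).symm
          · exact absurd hv (by simp [lab])
          · exact absurd hv (by simp [lab])
          · rw [Finset.mem_insert, Finset.mem_insert, Finset.mem_image]
            right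
            right
            have hb : i = i' := Sum.inr_injective (Sum.inl_injective hv)
            subst hb
            exact ⟨j, mem_univ _, rfl⟩
          · rw [Finset.mem_insert, Finset.mem_insert]
            right
            left
            have h3 : i = e i' := Sum.inr_injective (Sum.inl_injective hv)
            have h4 : i' = i0 := hinj (by rw [← h3, hi0])
            rw [h4]
        refine (Finset.card_le_card h2).trans ((Finset.card_insert_le _ _).trans ?_)
        have h3 := Finset.card_insert_le (Sum.inr (tri t d i0)) ((univ : Finset (Fin d)).image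
              fun j => (Sum.inr (Sum.inr (Sum.inl (i, j))) : Vx t d))
        have := Finset.card_image_le (s := (univ : Finset (Fin d)))
          (f := fun j => (Sum.inr (Sum.inr (Sum.inl (i, j))) : Vx t d))
        rw [Finset.card_univ, Fintype.card_fin] at this
        omega
    · have h2 : ∀ v ∈ U, v = Sum.inr (Sum.inl (Sum.inr x)) := by
        intro v hv
        rw [hUe, hlab] at hv
        rcases v with h | ((⟨b, j⟩ | y) | (⟨i', j⟩ | i'))
        · exact absurd hv (by simp [lab])
        · exact absurd hv (by simp [lab])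
        · rw [Sum.inr_injective hv]
        · exact absurd hv (by simp [lab])
        · exact absurd hv (by simp [lab])
      constructor
      · refine ⟨Sum.inr (Sum.inl (Sum.inr x)), by rw [hUe, hlab]; rfl, fun v hv => Or.inl (h2 v hv)⟩
      · have h3 : U ⊆ {Sum.inr (Sum.inl (Sum.inr x))} := fun v hv => by
          rw [Finset.mem_singleton]; exact h2 v hv
        have := Finset.card_le_card h3
        rw [Finset.card_singleton] at this
        omega
  obtain ⟨⟨c, hc, hc2⟩, hcard⟩ := main
  refine ⟨connected_of_center _ _ c (by simpa using hc) (by simpa using hc2), ?_⟩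
  rw [ratio, abs_le]
  have h2 : (1 : ℝ) ≤ U.card := by exact_mod_cast h1
  have h3 : (U.card : ℝ) ≤ d + 2 := by exact_mod_cast hcard
  have h4 : (1 : ℝ) ≤ d := by exact_mod_cast hd
  constructor <;> linarith

theorem conn (t d : ℕ) (ht : 1 ≤ t) (htd : t ≤ d) : KConnected t (gr t d) := by
  constructor
  · rw [card_Vx]
    nlinarith
  · intro X hX
    obtain ⟨a, ha⟩ : ∃ a : Fin t, (Sum.inl (Sum.inl a) : Vx t d) ∉ X := by
      by_contra hcon
      push Not at hcon
      have h1 : (univ : Finset (Fin t)).map ⟨fun a => (Sum.inl (Sum.inl a) : Vx t d),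
          fun a b hab => by simpa using hab⟩ ⊆ X := by
        intro v hv
        obtain ⟨a, -, rfl⟩ := Finset.mem_map.1 hv
        exact hcon a
      have := Finset.card_le_card h1
      rw [Finset.card_map, Finset.card_univ, Fintype.card_fin] at this
      omega
    have ha' : (Sum.inl (Sum.inl a) : Vx t d) ∈ ((X : Set (Vx t d))ᶜ) := by simpa using ha
    have leafR : ∀ (l : Leaf t d) (hl : (Sum.inr l : Vx t d) ∈ ((X : Set (Vx t d))ᶜ)),
        ((gr t d).induce ((X : Set (Vx t d))ᶜ)).Reachable ⟨Sum.inl (Sum.inl a), ha'⟩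
          ⟨Sum.inr l, hl⟩ := by
      intro l hl
      exact SimpleGraph.Adj.reachable (G := (gr t d).induce ((X : Set (Vx t d))ᶜ))
        (show (gr t d).Adj (Sum.inl (Sum.inl a)) (Sum.inr l) from trivial)
    have hubL : ∀ h : Hub t, ∃ l : Leaf t d, (Sum.inr l : Vx t d) ∉ X ∧ inc h l := by
      rintro (b | i)
      · by_contra hcon
        push Not at hcon
        have h1 : (univ : Finset (Fin (d + 1))).map
            ⟨fun j => (Sum.inr (Sum.inl (Sum.inl (b, j))) : Vx t d),
              fun x y hab => by simpa using hab⟩ ⊆ X := by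
          intro v hv
          obtain ⟨j, -, rfl⟩ := Finset.mem_map.1 hv
          by_contra hj
          exact hcon _ hj trivial
        have := Finset.card_le_card h1
        rw [Finset.card_map, Finset.card_univ, Fintype.card_fin] at this
        omega
      · by_contra hcon
        push Not at hcon
        have h1 : (univ : Finset (Fin d)).map
            ⟨fun j => (Sum.inr (Sum.inr (Sum.inl (i, j))) : Vx t d),
              fun x y hab => by simpa using hab⟩ ⊆ X := by
          intro v hv
          obtain ⟨j, -, rfl⟩ := Finset.mem_map.1 hv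
          by_contra hj
          exact hcon _ hj rfl
        have := Finset.card_le_card h1
        rw [Finset.card_map, Finset.card_univ, Fintype.card_fin] at this
        omega
    have key : ∀ u : ((X : Set (Vx t d))ᶜ : Set (Vx t d)),
        ((gr t d).induce ((X : Set (Vx t d))ᶜ)).Reachable ⟨Sum.inl (Sum.inl a), ha'⟩ u := by
      rintro ⟨h | l, hu⟩
      · obtain ⟨l, hl, hinc⟩ := hubL h
        have hl' : (Sum.inr l : Vx t d) ∈ ((X : Set (Vx t d))ᶜ) := by simpa using hl
        refine (leafR l hl').trans ?_
        exact SimpleGraph.Adj.reachable (G := (gr t d).induce ((X : Set (Vx t d))ᶜ))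
          (show (gr t d).Adj (Sum.inr l) (Sum.inl h) from hinc)
      · exact leafR l hu
    have : Nonempty ((X : Set (Vx t d))ᶜ : Set (Vx t d)) := ⟨⟨_, ha'⟩⟩
    exact SimpleGraph.Connected.mk fun u v => (key u).symm.trans (key v)

theorem not_reach (t d : ℕ) (hd : 1 ≤ d) :
    ∃ P Q : {P : Finpartition (univ : Finset (Vx t d)) // IsBCP (gr t d) (kk t d) d P},
      ¬ (confSpace (gr t d) (kk t d) d).Reachable P Q := by
  have o1 := part_ok (t := t) (d := d) (fun i => i) (fun _ _ h => h) (fun i => Or.inl rfl) hd
  have o2 := part_ok (t := t) (d := d) (fun i => i + 1) (by decide) (fun i => Or.inr rfl) hd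
  refine ⟨⟨_, o1⟩, ⟨_, o2⟩, fun h => ?_⟩
  have h1 := reach h (fun i => by
    rw [mem_W]
    change Sum.inr (tri t d i) ∈ (part t d (fun i => i)).part (Sum.inl (Sum.inr i))
    rw [mem_part]
    rfl) 0
  rw [mem_W] at h1
  change Sum.inr (tri t d 0) ∈ (part t d (fun i => i + 1)).part (Sum.inl (Sum.inr 0)) at h1
  rw [mem_part] at h1
  have h2 : (0 : Fin 3) = 0 + 1 := Sum.inr_injective (Sum.inl_injective h1)
  exact absurd h2 (by decide)

end Examples

/-- Q1 is false, for a graph on 30 vertices, and it stays false for graphs of any prescribed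
connectivity `t` and any slack `s ≥ c n / k`. -/
theorem result :
    (∃ (V : Type) (_ : Fintype V) (_ : DecidableEq V) (G : SimpleGraph V) (k : ℕ) (s : ℝ),
      Fintype.card V = 30 ∧ k = 15 ∧ s = 2 ∧
      Biconnected G ∧ 1 ≤ k ∧ k ≤ Fintype.card V ∧ (Fintype.card V : ℝ) / k ≤ s ∧
      ∃ P Q : {P : Finpartition (univ : Finset V) // IsBCP G k s P},
        ¬ (confSpace G k s).Reachable P Q) ∧
    (∀ (t : ℕ) (c : ℝ), ∃ (V : Type) (_ : Fintype V) (_ : DecidableEq V) (G : SimpleGraph V)
      (k : ℕ) (s : ℝ),
      KConnected t G ∧ 1 ≤ k ∧ k ≤ Fintype.card V ∧ c * ((Fintype.card V : ℝ) / k) ≤ s ∧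
      ∃ P Q : {P : Finpartition (univ : Finset V) // IsBCP G k s P},
        ¬ (confSpace G k s).Reachable P Q) := by
  have hk : ∀ t d : ℕ, 1 ≤ kk t d ∧ kk t d ≤ Fintype.card (Vx t d) := by
    intro t d
    rw [card_Vx]
    have : 1 ≤ (t + 3) * (d + 1) := Nat.mul_pos (by omega) (by omega)
    constructor
    · exact this
    · change (t + 3) * (d + 1) ≤ _
      omega
  constructor
  · refine ⟨Vx 2 2, inferInstance, inferInstance, gr 2 2, kk 2 2, (2 : ℕ), card_Vx 2 2, rfl,
      by norm_num, ?_, (hk 2 2).1, (hk 2 2).2, ?_, not_reach 2 2 (by norm_num)⟩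
    · have h := conn 2 2 (by norm_num) le_rfl
      refine ⟨?_, ?_, ?_⟩
      · have h1 := h.2 ∅ (by simp)
        have e : ((gr 2 2).induce (((∅ : Finset (Vx 2 2)) : Set (Vx 2 2))ᶜ)) ≃g gr 2 2 := by
          have e1 : (((∅ : Finset (Vx 2 2)) : Set (Vx 2 2))ᶜ) = Set.univ := by simp
          rw [e1]
          exact SimpleGraph.induceUnivIso (gr 2 2)
        exact e.connected_iff.1 h1
      · rw [card_Vx]; norm_num
      · intro v
        have h1 := h.2 {v} (by simp)
        have e : (({v} : Finset (Vx 2 2)) : Set (Vx 2 2)) = {v} := Finset.coe_singleton v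
        rw [e] at h1
        exact h1
    · rw [ratio]; norm_num
  · intro t c
    obtain ⟨d, hd⟩ := exists_nat_ge (2 * c)
    refine ⟨Vx (t + 1) (t + 1 + d), inferInstance, inferInstance, gr (t + 1) (t + 1 + d),
      kk (t + 1) (t + 1 + d), ((t + 1 + d : ℕ) : ℝ), ?_, (hk _ _).1, (hk _ _).2, ?_,
      not_reach _ _ (by omega)⟩
    · have h := conn (t + 1) (t + 1 + d) (by omega) (by omega)
      exact ⟨by have := h.1; omega, fun X hX => h.2 X (by omega)⟩
    · rw [ratio]
      push_cast
      have : (0 : ℝ) ≤ t := Nat.cast_nonneg t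
      linarith

end Pool.Agent.Results.MP_c7e24e_co.AnyConnectivityAnySlack
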